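import Pool.Agent.MWGR.StmtsN
import Pool.Agent.MWGR.StmtsD

/-!
# Block MWGR, row NFD: the label of a rigid pair
-/

namespace Pool.Agent.MWGR.H73

open Pool.Agent.Helper14_MV Pool.Agent.Helper2_MV Pool.Agent.MVO Pool.Agent.MWL Pool.Agent.MWS
  Pool.Agent.MWH Pool.Agent.MWGR

theorem fm_rep (σ : ℕ → List ℕ) (y v : ℕ) :
    ∀ l : List ℕ, (∀ c ∈ l, σ c = if c = y then [v] else []) →
      l.flatMap σ = List.replicate (l.count y) v
  | [], _ => by simp
  | c :: l, h => by
    rw [List.flatMap_cons, fm_rep σ y v l (fun d hd => h d (List.mem_cons_of_mem _ hd)),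
      h c List.mem_cons_self]
    by_cases hc : c = y
    · rw [if_pos hc, hc, List.count_cons_self, List.replicate_succ]
      rfl
    · rw [if_neg hc, List.count_cons_of_ne hc]
      rfl

theorem fm_count (n k : ℕ) (B B' : ℕ → List ℕ) (x : ℕ) (h : MWHP.Eq2 n k (ty B x) (ty B' x)) :
    ∀ L : List ℕ, (∀ j ∈ L, j ≤ k) → (L.flatMap B).count x ≡ (L.flatMap B').count x [MOD n]
  | [], _ => by simp [Nat.ModEq]
  | j :: L, hL => by
    rw [List.flatMap_cons, List.flatMap_cons, List.count_append, List.count_append]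
    refine Nat.ModEq.add ?_ (fm_count n k B B' x h L (fun i hi => hL i (List.mem_cons_of_mem _ hi)))
    rcases h j (hL j List.mem_cons_self) with h1 | h1
    · have h2 : (B j).count x = (B' j).count x := h1
      rw [h2]
    · exact h1.2.2

/-- the entries before a light block are zero -/
theorem no_before {k : ℕ} {B : ℕ → List ℕ} {a i : ℕ} (hg : MWGP.Gm k (ty B a)) (hi : i ≤ k)
    (ha : (B i).count a = 1) : ∀ j < i, a ∉ B j := by
  intro j hj hm
  have h1 : ty B a j ≠ 0 := by
    have := List.count_pos_iff.2 hm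
    show (B j).count a ≠ 0
    omega
  have h2 : ty B a i ≠ 0 := by
    show (B i).count a ≠ 0
    omega
  have h3 := hg j i hj hi h1 h2
  have h4 : ty B a i = 1 := ha
  omega

/-- a light letter occurs behind its block -/
theorem some_behind {k : ℕ} {B : ℕ → List ℕ} {a i : ℕ} (hB : OkB k B)
    (hg : MWGP.Gm k (ty B a)) (hi : i ≤ k) (ha : (B i).count a = 1) :
    ∃ j, i < j ∧ j ≤ k ∧ a ∈ B j := by
  by_contra hcon
  have hm : a ∈ B i := List.count_pos_iff.1 (by omega)
  have h1 := hB.ml i hi a hm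
  have h2 : deg k (fun j => (B j).count a) = 1 := by
    unfold deg
    rw [Finset.sum_eq_single i]
    · exact ha
    · intro j hj hne
      rw [Finset.mem_range] at hj
      rw [List.count_eq_zero]
      intro hmj
      rcases Nat.lt_or_ge j i with h3 | h3
      · exact no_before hg hi ha j h3 hmj
      · exact hcon ⟨j, by omega, by omega, hmj⟩
    · intro h3
      rw [Finset.mem_range] at h3
      omega
  omega

theorem mem_of_eq2 {n k : ℕ} {B B' : ℕ → List ℕ} {c : ℕ}
    (h : MWHP.Eq2 n k (ty B c) (ty B' c)) {j : ℕ} (hj : j ≤ k) : c ∈ B j ↔ c ∈ B' j := by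
  rcases h j hj with h1 | h1
  · have h2 : (B j).count c = (B' j).count c := h1
    rw [← List.count_pos_iff, ← List.count_pos_iff, h2]
  · have h2 : 2 ≤ (B j).count c := h1.1
    have h3 : 2 ≤ (B' j).count c := h1.2.1
    rw [← List.count_pos_iff, ← List.count_pos_iff]
    omega

theorem count_one_of_eq2 {n k : ℕ} {B B' : ℕ → List ℕ} {c : ℕ}
    (h : MWHP.Eq2 n k (ty B c) (ty B' c)) {j : ℕ} (hj : j ≤ k) (h1 : (B j).count c = 1) :
    (B' j).count c = 1 := by
  rcases h j hj with h2 | h2
  · have h3 : (B j).count c = (B' j).count c := h2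
    omega
  · have h3 : 2 ≤ (B j).count c := h2.1
    omega

/-- the substitution -/
def sg (x a : ℕ) : ℕ → List ℕ := fun c => if c = x then [0] else if c = a then [1] else []

theorem sg_x {x a : ℕ} {l : List ℕ} (h : a ∉ l) : l.flatMap (sg x a) = X (l.count x) := by
  refine fm_rep _ _ _ l (fun c hc => ?_)
  unfold sg
  by_cases h1 : c = x
  · rw [if_pos h1, if_pos h1]
  · rw [if_neg h1, if_neg h1, if_neg (fun h2 => h (by rw [← h2]; exact hc))]

theorem sg_a {x a : ℕ} {l : List ℕ} (h : x ∉ l) :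
    l.flatMap (sg x a) = List.replicate (l.count a) 1 := by
  refine fm_rep _ _ _ l (fun c hc => ?_)
  unfold sg
  rw [if_neg (fun h2 => h (by rw [← h2]; exact hc))]

/-- the image of the word -/
theorem im_word (h2 : PbiStmt) (h3 : SptStmt) {k i J x a : ℕ} {B : ℕ → List ℕ} (hi : i ≤ k)
    (hiJ : i ≤ J) (hJ : J + 1 ≤ k) (hxa : x ≠ a) (ha : (B i).count a = 1)
    (hb : ∀ j ≤ J, j ≠ i → a ∉ B j) (hm : a ∈ B (J + 1)) (hx : ∀ j, J < j → j ≤ k → x ∉ B j) :
    ∃ q m : ℕ, 1 ≤ m ∧
      asd 0 1 (fun j => (pshB k (fun j => if j ≤ J then 0 else 1) B j).flatMap (sg x a)) =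
        X (((List.range i).flatMap B).count x + cb (B i) x a) ++ 1 :: (X q ++ 2 ::
          List.replicate m 1) := by
  set f : ℕ → ℕ := fun j => if j ≤ J then 0 else 1 with hf
  obtain ⟨P, Q, e1, e2, e3, e4⟩ := h3 (B i) a ha
  have hfi : f i = 0 := by simp [hf, hiJ]
  have hp := h2 k i f B hi
  rw [hfi] at hp
  have hW1 : (List.range i).filter (fun j => decide (f j = 0)) = List.range i := by
    rw [List.filter_eq_self]
    intro j hj
    rw [List.mem_range] at hj
    rw [decide_eq_true_iff]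
    simp only [hf]
    rw [if_pos (by omega)]
  rw [hW1] at hp
  have ha1 : a ∉ (List.range i).flatMap B := by
    rw [List.mem_flatMap]
    rintro ⟨j, hj, hj2⟩
    rw [List.mem_range] at hj
    exact hb j (by omega) (by omega) hj2
  have ha2 : a ∉ ((List.range' (i + 1) (k - i)).filter (fun j => decide (f j = 0))).flatMap B := by
    rw [List.mem_flatMap]
    rintro ⟨j, hj, hj2⟩
    rw [List.mem_filter, List.mem_range'_1, decide_eq_true_iff] at hj
    have hjJ : j ≤ J := by
      by_contra hc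
      have := hj.2
      simp only [hf] at this
      rw [if_neg hc] at this
      omega
    exact hb j hjJ (by omega) hj2
  refine ⟨Q.count x + (((List.range' (i + 1) (k - i)).filter
    (fun j => decide (f j = 0))).flatMap B).count x, (pshB k f B 1).count a, ?_, ?_⟩
  · rw [Nat.one_le_iff_ne_zero, ← Nat.pos_iff_ne_zero, List.count_pos_iff, mem_pshB]
    exact ⟨J + 1, hJ, by simp [hf], hm⟩
  · show (pshB k f B 0).flatMap (sg x a) ++ (0 + 2 + 0) :: (pshB k f B 1).flatMap (sg x a) = _
    have hx1 : x ∉ pshB k f B 1 := by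
      rw [mem_pshB]
      rintro ⟨j, hj, hj1, hj2⟩
      have hjJ : J < j := by
        by_contra hc
        simp only [hf] at hj1
        rw [if_pos (by omega)] at hj1
        omega
      exact hx j hjJ hj hj2
    have hb1 : (B i).flatMap (sg x a) = X (cb (B i) x a) ++ 1 :: X (Q.count x) := by
      rw [e4 x]
      conv_lhs => rw [e1]
      rw [List.flatMap_append, List.flatMap_cons, sg_x e2, sg_x e3]
      have : sg x a a = [1] := by
        unfold sg
        rw [if_neg (Ne.symm hxa), if_pos rfl]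
      rw [this]
      rfl
    rw [hp, List.flatMap_append, List.flatMap_append, sg_x ha1, sg_x ha2, sg_a hx1, hb1,
      ]
    simp only [X, List.replicate_add, List.append_assoc, List.cons_append]

/-- **NFD** -/
theorem nfd (h1 : PslStmt) (h2 : PbiStmt) (h3 : SptStmt) (_h4 : EvlStmt) (h5 : NtdStmt)
    (h6 : DmaStmt) : NfdStmt := by
  intro n k θ B B' hbg hF hr i x a hi hxa hx ha hrg
  have hx' : x ∈ B i := List.count_pos_iff.1 (by omega)
  have ha' : a ∈ B i := List.count_pos_iff.1 (by omega)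
  have nsx : NS k x := hF.ok.ok i hi x hx'
  have nsa : NS k a := hF.ok.ok i hi a ha'
  have hga := hF.gm a nsa
  have heqa := hF.eq a nsa
  have heqx := hF.eq x nsx
  -- the first block behind `i` with `a`
  have hex : ∃ j, i < j ∧ j ≤ k ∧ a ∈ B j := some_behind hF.ok hga hi ha
  classical
  let j0 := Nat.find hex
  have hj0 : i < j0 ∧ j0 ≤ k ∧ a ∈ B j0 := Nat.find_spec hex
  have hmin : ∀ j, i < j → j < j0 → a ∉ B j := by
    intro j h7 h8 h9
    exact Nat.find_min hex h8 ⟨h7, by omega, h9⟩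
  obtain ⟨J, hJ⟩ : ∃ J, j0 = J + 1 := ⟨j0 - 1, by omega⟩
  rw [hJ] at hj0 hmin
  have hb : ∀ j ≤ J, j ≠ i → a ∉ B j := by
    intro j h7 h8
    rcases Nat.lt_or_ge j i with h9 | h9
    · exact no_before hga hi ha j h9
    · exact hmin j (by omega) (by omega)
  have hxj : ∀ j, J < j → j ≤ k → x ∉ B j := by
    intro j h7 h8 h9
    have := hrg (J + 1) j hj0.1 hj0.2.1 (by omega) h8 hj0.2.2 h9
    omega
  have hb' : ∀ j ≤ J, j ≠ i → a ∉ B' j := by
    intro j h7 h8
    rw [← mem_of_eq2 heqa (by omega : j ≤ k)]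
    exact hb j h7 h8
  have hxj' : ∀ j, J < j → j ≤ k → x ∉ B' j := by
    intro j h7 h8
    rw [← mem_of_eq2 heqx h8]
    exact hxj j h7 h8
  have hm' : a ∈ B' (J + 1) := (mem_of_eq2 heqa hj0.2.1).1 hj0.2.2
  have ha'' : (B' i).count a = 1 := count_one_of_eq2 heqa hi ha
  have hmap : BMap k 1 (fun j => if j ≤ J then 0 else 1) := by
    constructor
    · intro p q hpq _
      by_cases h7 : q ≤ J
      · rw [if_pos (by omega : p ≤ J)]
        omega
      · rw [if_neg h7]
        split_ifs <;> omega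
    · intro p _
      split_ifs <;> omega
  have hps := h1 θ k 1 0 _ B B' (sg x a) hmap (by omega) hF.ok.ok hF.ok'.ok hr
  obtain ⟨q, m, hm1, hw⟩ := im_word h2 h3 hi (by omega : i ≤ J) hj0.2.1 hxa ha hb hj0.2.2 hxj
  obtain ⟨q', m', hm1', hw'⟩ := im_word h2 h3 hi (by omega : i ≤ J) hj0.2.1 hxa ha'' hb' hm' hxj'
  rw [hw, hw'] at hps
  have hD := h5 n θ hbg _ q _ q' m m' hm1 hm1' hps
  obtain ⟨g, hgn, hg⟩ := (h6 n θ hbg).1
  rw [hg] at hD ⊢
  -- `p ≡ p'`
  have hpp : ((List.range i).flatMap B).count x ≡ ((List.range i).flatMap B').count x [MOD g] := by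
    refine Nat.ModEq.of_dvd hgn (fm_count n k B B' x heqx _ ?_)
    intro j hj
    rw [List.mem_range] at hj
    omega
  set p := ((List.range i).flatMap B).count x
  set p' := ((List.range i).flatMap B').count x
  set u := cb (B i) x a
  set u' := cb (B' i) x a
  have hz : g ∣ p + (n - 1) * p' := by
    rw [← Nat.modEq_zero_iff_dvd]
    calc p + (n - 1) * p' ≡ p' + (n - 1) * p' [MOD g] := Nat.ModEq.add_right _ hpp
      _ = n * p' := by
        obtain ⟨m1, hm2⟩ : ∃ m1, n = m1 + 1 := ⟨n - 1, by have := hbg.pos; omega⟩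
        rw [hm2]
        simp only [Nat.add_sub_cancel]
        ring
      _ ≡ 0 [MOD g] := by
        rw [Nat.modEq_zero_iff_dvd]
        exact Dvd.dvd.mul_right hgn _
  have he : p + u + (n - 1) * (p' + u') = (p + (n - 1) * p') + (u + (n - 1) * u') := by ring
  rw [he] at hD
  exact (Nat.dvd_add_right hz).1 hD

end Pool.Agent.MWGR.H73
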