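import Pool.Agent.MWGR.StmtsN
import Pool.Agent.MWGR.Mono

/-!
# Block MWGR, row TCR: the label
-/

namespace Pool.Agent.MWGR.H73

open Pool.Agent.Helper14_MV Pool.Agent.Helper2_MV Pool.Agent.MVO Pool.Agent.MWL Pool.Agent.MWS
  Pool.Agent.MWH Pool.Agent.MWGR

/-- **TCR** -/
theorem tcr (h1 : NfdStmt) (h2 : DmaStmt) (_h3 : CrmStmt) (h4 : CrdStmt) (h5 : FrlStmt) :
    TcrStmt := by
  intro n β hR k B B' hF i x a hi hxa hx ha
  by_cases hrg : Rg k B i x a
  · set s := cb (B i) x a with hs
    set s' := cb (B' i) x a with hs'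
    set d := s + (n - 1) * s' with hd
    have hmem : ∀ e ∈ n.primeFactors.toList.map (fun p => Ed.dm (d * (n / p ^ n.factorization p))),
        ∃ p ∈ n.primeFactors, e = Ed.dm (d * (n / p ^ n.factorization p)) := by
      intro e he
      rw [List.mem_map] at he
      obtain ⟨p, hp, he⟩ := he
      exact ⟨p, Finset.mem_toList.1 hp, he.symm⟩
    refine ⟨n.primeFactors.toList.map (fun p => Ed.dm (d * (n / p ^ n.factorization p))), ?_, ?_⟩
    · intro e he
      obtain ⟨p, hp, he⟩ := hmem e he
      rw [he]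
      refine ⟨p, n.factorization p, Nat.prime_of_mem_primeFactors hp, ?_⟩
      rw [mul_assoc, Nat.div_mul_cancel (Nat.ordProj_dvd n p)]
      exact Dvd.intro_left d rfl
    · intro θ hle _
      have hbg : BG n (RR θ) := bg_mono hR.toBG hle
      refine ⟨fun hr e he => ?_, fun hL => ?_⟩
      · obtain ⟨p, hp, he⟩ := hmem e he
        rw [he]
        have hD : Dm n d (RR θ) := h1 n k θ B B' hbg hF hr i x a hi hxa hx ha hrg
        obtain ⟨g, hgn, hg⟩ := (h2 n θ hbg).1
        show Dm n (d * (n / p ^ n.factorization p)) (RR θ)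
        rw [hg] at hD ⊢
        exact Dvd.dvd.mul_right hD _
      · have hD : Dm n d (RR θ) := by
          refine (h2 n θ hbg).2 d (fun p hp => ?_)
          exact hL (Ed.dm (d * (n / p ^ n.factorization p)))
            (List.mem_map.2 ⟨p, Finset.mem_toList.2 hp, rfl⟩)
        intro H pr haH
        refine h4 n θ hbg d hD H pr _ x a haH s s' ?_
        have h6 : s' + d = s + n * s' := by
          obtain ⟨m, hm⟩ : ∃ m, n = m + 1 := ⟨n - 1, by have := hbg.pos; omega⟩
          rw [hd, hm]
          simp only [Nat.add_sub_cancel]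
          ring
        rw [h6]
        show s % n = (s + n * s') % n
        rw [Nat.add_mul_mod_self_left]
  · refine ⟨[], fun e he => absurd he List.not_mem_nil, fun θ hle _ =>
      ⟨fun _ e he => absurd he List.not_mem_nil, fun _ H pr haH => ?_⟩⟩
    exact (h5 n θ (bg_mono hR.toBG hle) (kaba_mono hR.k hle) k B hF.ok hF.gm i x a hi hxa hrg H pr
      haH).1 _ _

end Pool.Agent.MWGR.H73
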